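import Mathlib
import Pool.Agent.H5R2.NL.Cut

/-!
# Dilations, Sobolev and Hardy inequalities for the closure of the test functions in dimension 3
-/

set_option autoImplicit false

open MeasureTheory Filter Topology Set
open scoped ContDiff ENNReal

namespace Pool.Agent.Helper13_HS

/-- three dimensional space -/
abbrev E := EuclideanSpace ℝ (Fin 3)

/-- smooth functions with compact support in `Ω` -/
def Tst (Ω : Set E) (φ : E → ℝ) : Prop :=
  ContDiff ℝ ((⊤ : ℕ∞) : WithTop ℕ∞) φ ∧ HasCompactSupport φ ∧ tsupport φ ⊆ Ω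

/-- `w` lies in the closure of the test functions, with gradient `W` -/
def Adm (Ω : Set E) (w : E → ℝ) (W : E → E) : Prop :=
  MemLp w 2 volume ∧ MemLp W 2 volume ∧ ∃ φ : ℕ → E → ℝ, (∀ n, Tst Ω (φ n)) ∧
    Tendsto (fun n => eLpNorm (fun x => φ n x - w x) 2 volume) atTop (𝓝 0) ∧
    Tendsto (fun n => eLpNorm (fun x => gradient (φ n) x - W x) 2 volume) atTop (𝓝 0)

lemma Tst.continuous {Ω : Set E} {φ : E → ℝ} (h : Tst Ω φ) : Continuous φ := h.1.continuous

lemma continuous_gradient {φ : E → ℝ} (h : ContDiff ℝ ((⊤ : ℕ∞) : WithTop ℕ∞) φ) :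
    Continuous (gradient φ) := by
  unfold gradient
  exact (LinearIsometryEquiv.continuous _).comp (h.continuous_fderiv (by simp))

lemma norm_gradient (φ : E → ℝ) (x : E) : ‖gradient φ x‖ = ‖fderiv ℝ φ x‖ := by
  unfold gradient
  exact LinearIsometryEquiv.norm_map _ _

lemma inner_gradient (φ : E → ℝ) (x v : E) : inner ℝ (gradient φ x) v = fderiv ℝ φ x v := by
  unfold gradient
  exact InnerProductSpace.toDual_symm_apply

lemma hasCompactSupport_gradient {φ : E → ℝ} (h : HasCompactSupport φ) :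
    HasCompactSupport (gradient φ) := by
  unfold gradient
  exact (h.fderiv (𝕜 := ℝ)).comp_left (g := fun L => (InnerProductSpace.toDual ℝ E).symm L)
    (map_zero _)

lemma Tst.memLp {Ω : Set E} {φ : E → ℝ} (h : Tst Ω φ) (p : ℝ≥0∞) : MemLp φ p volume :=
  h.1.continuous.memLp_of_hasCompactSupport h.2.1

lemma Tst.memLp_gradient {Ω : Set E} {φ : E → ℝ} (h : Tst Ω φ) (p : ℝ≥0∞) :
    MemLp (gradient φ) p volume :=
  (continuous_gradient h.1).memLp_of_hasCompactSupport (hasCompactSupport_gradient h.2.1)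

lemma Tst.toUniv {Ω : Set E} {φ : E → ℝ} (h : Tst Ω φ) : Tst univ φ := ⟨h.1, h.2.1, subset_univ _⟩

lemma gradient_sub' {φ ψ : E → ℝ} (h : ContDiff ℝ ((⊤ : ℕ∞) : WithTop ℕ∞) φ)
    (h' : ContDiff ℝ ((⊤ : ℕ∞) : WithTop ℕ∞) ψ) (x : E) :
    gradient (fun y => φ y - ψ y) x = gradient φ x - gradient ψ x := by
  unfold gradient
  rw [fderiv_fun_sub (h.differentiable (by simp) x) (h'.differentiable (by simp) x), map_sub]

lemma Tst.sub {φ ψ : E → ℝ} (h : Tst univ φ) (h' : Tst univ ψ) :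
    Tst univ (fun y => φ y - ψ y) :=
  ⟨h.1.sub h'.1, h.2.1.sub h'.2.1, subset_univ _⟩

/-! ### Sobolev and Hardy for smooth functions -/

/-- the Sobolev constant -/
noncomputable def CS : ℝ≥0∞ := SNormLESNormFDerivOfEqConst ℝ (volume : Measure E) 2

lemma CS_ne_top : CS ≠ ⊤ := ENNReal.coe_ne_top

lemma eLpNorm_gradient (φ : E → ℝ) (p : ℝ≥0∞) :
    eLpNorm (gradient φ) p volume = eLpNorm (fderiv ℝ φ) p volume :=
  eLpNorm_congr_norm_ae (ae_of_all _ fun x => norm_gradient φ x)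

lemma sob_smooth {φ : E → ℝ} (h : Tst univ φ) :
    eLpNorm φ 6 volume ≤ CS * eLpNorm (gradient φ) 2 volume := by
  rw [eLpNorm_gradient]
  have := eLpNorm_le_eLpNorm_fderiv_of_eq (μ := (volume : Measure E)) (u := φ) (p := 2) (p' := 6)
    (h.1.of_le (by simp)) h.2.1 (by norm_num) (by simp) (by simp; norm_num)
  simpa [CS] using this

lemma gsq_ofReal {φ : E → ℝ} (hφ : ContDiff ℝ ((⊤ : ℕ∞) : WithTop ℕ∞) φ) (x : E) :
    Pool.Agent.H5R2.NL.gsq (fun y => (φ y : ℂ)) x = ‖gradient φ x‖ ^ 2 := by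
  have h1 : HasFDerivAt φ (fderiv ℝ φ x) x := ((hφ.differentiable (by simp)) x).hasFDerivAt
  have h2 : HasFDerivAt (fun y => (φ y : ℂ)) (Complex.ofRealCLM.comp (fderiv ℝ φ x)) x :=
    Complex.ofRealCLM.hasFDerivAt.comp x h1
  unfold Pool.Agent.H5R2.NL.gsq
  rw [h2.fderiv, EuclideanSpace.norm_sq_eq]
  refine Finset.sum_congr rfl fun c _ => ?_
  have h3 : gradient φ x c = fderiv ℝ φ x (EuclideanSpace.single c 1) := by
    rw [← inner_gradient, EuclideanSpace.inner_single_right]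
    simp
  rw [h3]
  show ‖((fderiv ℝ φ x (EuclideanSpace.single c 1) : ℝ) : ℂ)‖ ^ 2 = _
  rw [Complex.norm_real]

lemma eLpNorm_two_sq {F : Type*} [NormedAddCommGroup F] (f : E → F) :
    eLpNorm f 2 volume ^ 2 = ∫⁻ x, ‖f x‖ₑ ^ 2 := by
  have := eLpNorm_nnreal_pow_eq_lintegral (μ := (volume : Measure E)) (f := f) (p := 2) (by norm_num)
  have h2 : eLpNorm f 2 volume ^ (2 : ℝ) = ∫⁻ x, ‖f x‖ₑ ^ (2 : ℝ) := by simpa using this
  have h3 : ∀ a : ℝ≥0∞, a ^ (2 : ℝ) = a ^ 2 := fun a => by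
    rw [← ENNReal.rpow_natCast]; norm_num
  simpa [h3] using h2

lemma hardy_smooth {φ : E → ℝ} (h : Tst univ φ) :
    eLpNorm (fun x => φ x / ‖x‖) 2 volume ≤ 2 * eLpNorm (gradient φ) 2 volume := by
  have hu : ContDiff ℝ 1 fun x => (φ x : ℂ) :=
    (Complex.ofRealCLM.contDiff.comp h.1).of_le (by simp)
  have hcu : HasCompactSupport fun x => (φ x : ℂ) :=
    h.2.1.comp_left (g := fun r : ℝ => (r : ℂ)) (by simp)
  obtain ⟨h1, h2⟩ := Pool.Agent.H5R2.NL.hardy 0 (fun x => (φ x : ℂ)) hu hcu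
  have h3 : eLpNorm (fun x => φ x / ‖x‖) 2 volume ^ 2 ≤ (2 * eLpNorm (gradient φ) 2 volume) ^ 2 := by
    rw [mul_pow, eLpNorm_two_sq, eLpNorm_two_sq]
    have e1 : ∫⁻ x : E, ‖φ x / ‖x‖‖ₑ ^ 2 = ENNReal.ofReal (∫ x : E, ‖(φ x : ℂ)‖ ^ 2 / ‖x - 0‖ ^ 2) := by
      rw [ofReal_integral_eq_lintegral_ofReal h1 (ae_of_all _ fun x => by positivity)]
      refine lintegral_congr fun x => ?_
      rw [← ofReal_norm, ← ENNReal.ofReal_pow (norm_nonneg _)]
      simp [div_pow]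
    have e2 : ∫⁻ x : E, ‖gradient φ x‖ₑ ^ 2
        = ENNReal.ofReal (∫ x, Pool.Agent.H5R2.NL.gsq (fun x => (φ x : ℂ)) x) := by
      have e3 : (fun x => Pool.Agent.H5R2.NL.gsq (fun x => (φ x : ℂ)) x)
          = fun x => ‖gradient φ x‖ ^ 2 := funext fun x => gsq_ofReal h.1 x
      rw [e3, ofReal_integral_eq_lintegral_ofReal
        ((h.memLp_gradient 2).integrable_norm_pow (by norm_num))
        (ae_of_all _ fun x => by positivity)]
      refine lintegral_congr fun x => ?_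
      rw [← ofReal_norm, ← ENNReal.ofReal_pow (norm_nonneg _)]
    rw [e1, e2]
    have e4 : (2 : ℝ≥0∞) ^ 2 = ENNReal.ofReal 4 := by norm_num
    rw [e4, ← ENNReal.ofReal_mul (by norm_num)]
    exact ENNReal.ofReal_le_ofReal h2
  exact (ENNReal.pow_le_pow_left_iff (by norm_num : (2 : ℕ) ≠ 0)).1 h3

end Pool.Agent.Helper13_HS
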