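import Pool.Agent.Helper13_HS.Scale

/-!
# The dilation estimate, and passage to the limit
-/

set_option autoImplicit false

open MeasureTheory Filter Topology Set
open scoped ContDiff ENNReal

namespace Pool.Agent.Helper13_HS

lemma sq_enorm_integral_le {α : Type*} [MeasurableSpace α] (μ : Measure α) (g : α → ℝ)
    (hg : AEStronglyMeasurable g μ) :
    ‖∫ a, g a ∂μ‖ₑ ^ 2 ≤ μ univ * ∫⁻ a, ‖g a‖ₑ ^ 2 ∂μ := by
  have h1 : ‖∫ a, g a ∂μ‖ₑ ≤ eLpNorm g 1 μ := by
    rw [eLpNorm_one_eq_lintegral_enorm]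
    exact enorm_integral_le_lintegral_enorm g
  have h2 := eLpNorm_le_eLpNorm_mul_rpow_measure_univ (μ := μ) (p := 1) (q := 2) (f := g)
    (by norm_num) hg
  have h3 := eLpNorm_nnreal_pow_eq_lintegral (μ := μ) (f := g) (p := 2) (by norm_num)
  have h4 : ∀ a : ℝ≥0∞, a ^ (2 : ℝ) = a ^ 2 := fun a => by
    rw [← ENNReal.rpow_natCast]; norm_num
  have h5 : eLpNorm g 2 μ ^ 2 = ∫⁻ a, ‖g a‖ₑ ^ 2 ∂μ := by
    have : eLpNorm g 2 μ ^ (2 : ℝ) = ∫⁻ a, ‖g a‖ₑ ^ (2 : ℝ) ∂μ := by simpa using h3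
    simpa [h4] using this
  calc ‖∫ a, g a ∂μ‖ₑ ^ 2 ≤ (eLpNorm g 2 μ * μ univ ^ (1 / (1 : ℝ≥0∞).toReal - 1 / (2 : ℝ≥0∞).toReal)) ^ 2 := by
        gcongr
        exact h1.trans h2
    _ = μ univ * ∫⁻ a, ‖g a‖ₑ ^ 2 ∂μ := by
        rw [mul_pow, h5, mul_comm, ← ENNReal.rpow_natCast (μ univ ^ _), ← ENNReal.rpow_mul]
        norm_num

/-- the derivative of `D τ φ x` with respect to `τ` -/
noncomputable def hd (φ : E → ℝ) (τ : ℝ) (x : E) : ℝ :=
  -τ⁻¹ * ((1 / 2) * D τ φ x + inner ℝ (D' τ (gradient φ) x) x)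

lemma hasDerivAt_D {φ : E → ℝ} (h : ContDiff ℝ ((⊤ : ℕ∞) : WithTop ℕ∞) φ) {τ : ℝ} (ht : 0 < τ)
    (x : E) : HasDerivAt (fun τ => D τ φ x) (hd φ τ x) τ := by
  have hs : 0 < √τ := Real.sqrt_pos.2 ht
  have hs2 : √τ ^ 2 = τ := Real.sq_sqrt ht.le
  have h1 : HasFDerivAt φ (fderiv ℝ φ (τ⁻¹ • x)) (τ⁻¹ • x) :=
    ((h.differentiable (by simp)) _).hasFDerivAt
  have h2 : HasDerivAt (fun s : ℝ => s⁻¹ • x) ((-(τ ^ 2)⁻¹) • x) τ :=
    (hasDerivAt_inv ht.ne').smul_const x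
  have h3 : HasDerivAt (fun s : ℝ => φ (s⁻¹ • x)) (fderiv ℝ φ (τ⁻¹ • x) ((-(τ ^ 2)⁻¹) • x)) τ :=
    h1.comp_hasDerivAt τ h2
  have h4 : HasDerivAt (fun s : ℝ => (√s)⁻¹) (-(1 / (2 * √τ)) / √τ ^ 2) τ :=
    (Real.hasDerivAt_sqrt ht.ne').inv hs.ne'
  have h5 := h4.mul h3
  refine HasDerivAt.congr_deriv (f := fun τ => D τ φ x) h5 ?_
  unfold hd D D'
  rw [inner_smul_left, inner_gradient, map_smul, smul_eq_mul]
  have e : √τ ^ 3 = √τ * τ := by rw [pow_succ, hs2, mul_comm]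
  simp only [e, hs2, conj_trivial]
  field_simp
  ring

lemma continuousOn_hd {φ : E → ℝ} (h : ContDiff ℝ ((⊤ : ℕ∞) : WithTop ℕ∞) φ) (x : E) :
    ContinuousOn (fun τ => hd φ τ x) (Ioi 0) := by
  have hc := h.continuous
  have hg := continuous_gradient h
  have hi : ContinuousOn (fun τ : ℝ => τ⁻¹) (Ioi 0) := continuousOn_inv₀.mono (fun τ hτ => ne_of_gt hτ)
  have hsq : ContinuousOn (fun τ : ℝ => √τ) (Ioi 0) := Real.continuous_sqrt.continuousOn
  have hsi : ContinuousOn (fun τ : ℝ => (√τ)⁻¹) (Ioi 0) :=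
    hsq.inv₀ (fun τ hτ => (Real.sqrt_pos.2 hτ).ne')
  have hsi3 : ContinuousOn (fun τ : ℝ => (√τ ^ 3)⁻¹) (Ioi 0) :=
    (hsq.pow 3).inv₀ (fun τ hτ => (pow_pos (Real.sqrt_pos.2 hτ) 3).ne')
  have hx : ContinuousOn (fun τ : ℝ => τ⁻¹ • x) (Ioi 0) := hi.smul continuousOn_const
  unfold hd D D'
  refine hi.neg.mul ((continuousOn_const.mul (hsi.mul (hc.comp_continuousOn hx))).add ?_)
  exact (hsi3.smul (hg.comp_continuousOn hx)).inner continuousOn_const

lemma D_one (φ : E → ℝ) (x : E) : D 1 φ x = φ x := by simp [D]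

lemma measurable_hd {φ : E → ℝ} (h : ContDiff ℝ ((⊤ : ℕ∞) : WithTop ℕ∞) φ) :
    Measurable (fun p : E × ℝ => hd φ p.2 p.1) := by
  have hc := h.continuous.measurable
  have hg := (continuous_gradient h).measurable
  have hx : Measurable (fun p : E × ℝ => p.2⁻¹ • p.1) := (measurable_snd.inv).smul measurable_fst
  unfold hd D D'
  have h1 : Measurable (fun p : E × ℝ => √p.2) := Real.continuous_sqrt.measurable.comp measurable_snd
  refine (measurable_snd.inv.neg).mul ((measurable_const.mul (h1.inv.mul (hc.comp hx))).add ?_)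
  exact ((h1.pow_const 3).inv.smul (hg.comp hx)).inner measurable_fst

lemma hd_bound {φ : E → ℝ} (h : Tst univ φ) {τ : ℝ} (ht : 1 / 2 ≤ τ) :
    eLpNorm (fun x => hd φ τ x / ‖x‖) 2 volume ≤ 4 * eLpNorm (gradient φ) 2 volume := by
  have ht0 : 0 < τ := by linarith
  have e : (fun x => hd φ τ x / ‖x‖) = (-τ⁻¹) • ((fun x => (1 / 2 : ℝ) • (D τ φ x / ‖x‖)) +
      fun x => inner ℝ (D' τ (gradient φ) x) x / ‖x‖) := by
    funext x
    simp only [hd, Pi.smul_apply, Pi.add_apply, smul_eq_mul]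
    ring
  have m1 : Measurable (D τ φ) := (h.D_contDiff τ).continuous.measurable
  have m2 : Measurable (D' τ (gradient φ)) := by
    unfold D'
    exact ((continuous_gradient h.1).measurable.comp (measurable_const_smul τ⁻¹)).const_smul ((√τ ^ 3)⁻¹)
  have b1 : eLpNorm (fun x => (1 / 2 : ℝ) • (D τ φ x / ‖x‖)) 2 volume
      ≤ eLpNorm (gradient φ) 2 volume := by
    have e1 : (fun x => (1 / 2 : ℝ) • (D τ φ x / ‖x‖)) = (1 / 2 : ℝ) • (fun x => (D τ φ x / ‖x‖)) := rfl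
    rw [e1, eLpNorm_const_smul, eL_Dx φ ht0]
    calc ‖(1 / 2 : ℝ)‖ₑ * eLpNorm (fun x => φ x / ‖x‖) 2 volume
        ≤ ‖(1 / 2 : ℝ)‖ₑ * (2 * eLpNorm (gradient φ) 2 volume) := by
          gcongr
          exact hardy_smooth h
      _ = eLpNorm (gradient φ) 2 volume := by
          rw [← mul_assoc]
          have : ‖(1 / 2 : ℝ)‖ₑ * 2 = 1 := by
            rw [Real.enorm_eq_ofReal (by norm_num)]
            have : (2 : ℝ≥0∞) = ENNReal.ofReal 2 := by norm_num
            rw [this, ← ENNReal.ofReal_mul (by norm_num)]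
            norm_num
          rw [this, one_mul]
  have b2 : eLpNorm (fun x => inner ℝ (D' τ (gradient φ) x) x / ‖x‖) 2 volume
      ≤ eLpNorm (gradient φ) 2 volume := by
    rw [← eL_D' (gradient φ) ht0]
    refine eLpNorm_mono fun x => ?_
    rw [norm_div, norm_norm]
    by_cases hx : ‖x‖ = 0
    · simp [hx]
    · rw [div_le_iff₀ (lt_of_le_of_ne (norm_nonneg x) (Ne.symm hx))]
      exact norm_inner_le_norm _ _
  rw [e, eLpNorm_const_smul]
  have m3 : AEStronglyMeasurable (fun x => (1 / 2 : ℝ) • (D τ φ x / ‖x‖)) volume :=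
    ((m1.div measurable_norm).const_smul (1 / 2 : ℝ)).aestronglyMeasurable
  have m4 : AEStronglyMeasurable (fun x => inner ℝ (D' τ (gradient φ) x) x / ‖x‖) volume :=
    ((m2.inner measurable_id).div measurable_norm).aestronglyMeasurable
  calc ‖-τ⁻¹‖ₑ * eLpNorm ((fun x => (1 / 2 : ℝ) • (D τ φ x / ‖x‖)) +
      fun x => inner ℝ (D' τ (gradient φ) x) x / ‖x‖) 2 volume
      ≤ 2 * (eLpNorm (gradient φ) 2 volume + eLpNorm (gradient φ) 2 volume) := by
        refine mul_le_mul' ?_ ((eLpNorm_add_le m3 m4 (by norm_num)).trans (add_le_add b1 b2))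
        rw [enorm_neg, Real.enorm_eq_ofReal (by positivity)]
        have : (2 : ℝ≥0∞) = ENNReal.ofReal 2 := by norm_num
        rw [this]
        refine ENNReal.ofReal_le_ofReal ?_
        rw [inv_le_comm₀ ht0 (by norm_num)]
        linarith
    _ = 4 * eLpNorm (gradient φ) 2 volume := by ring

lemma dil_smooth {φ : E → ℝ} (h : Tst univ φ) {t : ℝ} (ht : 1 / 2 ≤ t) (ht1 : t ≤ 1) :
    eLpNorm (fun x => (D t φ x - φ x) / ‖x‖) 2 volume
      ≤ ENNReal.ofReal (4 * (1 - t)) * eLpNorm (gradient φ) 2 volume := by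
  have ht0 : 0 < t := by linarith
  -- pointwise
  have hp : ∀ x : E, ‖(D t φ x - φ x) / ‖x‖‖ₑ ^ 2
      ≤ ENNReal.ofReal (1 - t) * ∫⁻ τ in Icc t 1, ‖hd φ τ x / ‖x‖‖ₑ ^ 2 := by
    intro x
    have hsub : uIcc t 1 ⊆ Ioi 0 := by
      rw [uIcc_of_le ht1]
      intro s hs
      exact lt_of_lt_of_le ht0 hs.1
    have hint : IntervalIntegrable (fun τ => hd φ τ x) volume t 1 :=
      ((continuousOn_hd h.1 x).mono hsub).intervalIntegrable
    have h1 : ∫ τ in t..1, hd φ τ x = D 1 φ x - D t φ x :=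
      intervalIntegral.integral_eq_sub_of_hasDerivAt
        (fun τ hτ => hasDerivAt_D h.1 (hsub hτ) x) hint
    have h2 : (D t φ x - φ x) / ‖x‖ = - ∫ τ in Icc t 1, hd φ τ x / ‖x‖ := by
      rw [integral_div, integral_Icc_eq_integral_Ioc, ← intervalIntegral.integral_of_le ht1, h1,
        D_one]
      ring
    rw [h2, enorm_neg]
    have hm : AEStronglyMeasurable (fun τ => hd φ τ x / ‖x‖) (volume.restrict (Icc t 1)) := by
      have : Measurable (fun τ => hd φ τ x) :=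
        (measurable_hd h.1).comp (measurable_const.prodMk measurable_id)
      exact (this.div_const _).aestronglyMeasurable
    have h3 := sq_enorm_integral_le (volume.restrict (Icc t 1)) (fun τ => hd φ τ x / ‖x‖) hm
    simpa using h3
  have h4 : eLpNorm (fun x => (D t φ x - φ x) / ‖x‖) 2 volume ^ 2
      ≤ (ENNReal.ofReal (4 * (1 - t)) * eLpNorm (gradient φ) 2 volume) ^ 2 := by
    rw [eLpNorm_two_sq]
    have hmm : Measurable (fun p : E × ℝ => ‖hd φ p.2 p.1 / ‖p.1‖‖ₑ ^ 2) :=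
      (((measurable_hd h.1).div measurable_fst.norm).enorm).pow_const 2
    calc ∫⁻ x, ‖(D t φ x - φ x) / ‖x‖‖ₑ ^ 2
        ≤ ∫⁻ x : E, ENNReal.ofReal (1 - t) * ∫⁻ τ in Icc t 1, ‖hd φ τ x / ‖x‖‖ₑ ^ 2 :=
          lintegral_mono hp
      _ = ENNReal.ofReal (1 - t) * ∫⁻ x : E, ∫⁻ τ in Icc t 1, ‖hd φ τ x / ‖x‖‖ₑ ^ 2 := by
          rw [lintegral_const_mul' _ _ (by simp)]
      _ = ENNReal.ofReal (1 - t) * ∫⁻ τ in Icc t 1, ∫⁻ x : E, ‖hd φ τ x / ‖x‖‖ₑ ^ 2 := by
          rw [lintegral_lintegral_swap hmm.aemeasurable]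
      _ ≤ ENNReal.ofReal (1 - t) * ∫⁻ τ in Icc t 1, (4 * eLpNorm (gradient φ) 2 volume) ^ 2 := by
          have key : ∀ τ ∈ Icc t 1, ∫⁻ x : E, ‖hd φ τ x / ‖x‖‖ₑ ^ 2
              ≤ (4 * eLpNorm (gradient φ) 2 volume) ^ 2 := by
            intro τ hτ
            rw [← eLpNorm_two_sq]
            exact pow_le_pow_left₀ (by simp) (hd_bound h (ht.trans hτ.1)) 2
          exact mul_le_mul' le_rfl (setLIntegral_mono' measurableSet_Icc key)
      _ = (ENNReal.ofReal (4 * (1 - t)) * eLpNorm (gradient φ) 2 volume) ^ 2 := by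
          rw [setLIntegral_const, Real.volume_Icc, ENNReal.ofReal_mul (by norm_num)]
          have : ENNReal.ofReal 4 = 4 := by norm_num
          rw [this]
          ring
  exact (ENNReal.pow_le_pow_left_iff (by norm_num : (2 : ℕ) ≠ 0)).1 h4

/-- passage to the limit in linear estimates -/
lemma closure_bound {Ω : Set E} {w : E → ℝ} {W : E → E} (h : Adm Ω w W)
    (T : (E → ℝ) → (E → ℝ)) (p : ℝ≥0∞) (K : ℝ≥0∞) (hK : K ≠ ⊤)
    (hTm : ∀ φ, Tst univ φ → AEStronglyMeasurable (T φ) volume)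
    (hT : ∀ φ, Tst univ φ → eLpNorm (T φ) p volume ≤ K * eLpNorm (gradient φ) 2 volume)
    (hlim : ∀ φ : ℕ → E → ℝ, (∀ᵐ x, Tendsto (fun n => φ n x) atTop (𝓝 (w x))) →
      ∀ᵐ x, Tendsto (fun n => T (φ n) x) atTop (𝓝 (T w x))) :
    eLpNorm (T w) p volume ≤ K * eLpNorm W 2 volume := by
  obtain ⟨hw, hW, φ, hφ, h1, h2⟩ := h
  have h3 : TendstoInMeasure volume φ atTop w :=
    tendstoInMeasure_of_tendsto_eLpNorm (p := 2) (by norm_num)
      (fun n => ((hφ n).memLp 2).1) hw.1 h1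
  obtain ⟨ns, hns, hae⟩ := h3.exists_seq_tendsto_ae
  have h4 := Lp.eLpNorm_lim_le_liminf_eLpNorm (p := p) (fun n => hTm (φ (ns n)) (hφ _).toUniv) (T w)
    (hlim (fun n => φ (ns n)) hae)
  refine h4.trans ?_
  have h5 : ∀ n, eLpNorm (T (φ (ns n))) p volume ≤
      K * (eLpNorm W 2 volume + eLpNorm (fun x => gradient (φ (ns n)) x - W x) 2 volume) := by
    intro n
    refine (hT _ (hφ _).toUniv).trans ?_
    gcongr
    have e : gradient (φ (ns n)) = W + fun x => gradient (φ (ns n)) x - W x := by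
      funext x
      simp
    calc eLpNorm (gradient (φ (ns n))) 2 volume
        = eLpNorm (W + fun x => gradient (φ (ns n)) x - W x) 2 volume := by rw [← e]
      _ ≤ _ := eLpNorm_add_le hW.1 (((hφ _).memLp_gradient 2).1.sub hW.1) (by norm_num)
  have h6 : Tendsto (fun n => K * (eLpNorm W 2 volume +
      eLpNorm (fun x => gradient (φ (ns n)) x - W x) 2 volume)) atTop
      (𝓝 (K * (eLpNorm W 2 volume + 0))) :=
    ENNReal.Tendsto.const_mul (tendsto_const_nhds.add (h2.comp hns.tendsto_atTop)) (Or.inr hK)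
  rw [add_zero] at h6
  calc liminf (fun n => eLpNorm (T (φ (ns n))) p volume) atTop
      ≤ liminf (fun n => K * (eLpNorm W 2 volume +
      eLpNorm (fun x => gradient (φ (ns n)) x - W x) 2 volume)) atTop :=
        liminf_le_liminf (Eventually.of_forall h5)
    _ = K * eLpNorm W 2 volume := h6.liminf_eq

lemma Adm.sob {Ω : Set E} {w : E → ℝ} {W : E → E} (h : Adm Ω w W) :
    eLpNorm w 6 volume ≤ CS * eLpNorm W 2 volume :=
  closure_bound h (fun w => w) 6 CS CS_ne_top (fun φ hφ => (hφ.memLp 2).1)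
    (fun _ hφ => sob_smooth hφ) (fun _ h => h)

lemma Adm.hardy {Ω : Set E} {w : E → ℝ} {W : E → E} (h : Adm Ω w W) :
    eLpNorm (fun x => w x / ‖x‖) 2 volume ≤ 2 * eLpNorm W 2 volume :=
  closure_bound h (fun w x => w x / ‖x‖) 2 2 (by norm_num)
    (fun φ hφ => (hφ.1.continuous.measurable.div measurable_norm).aestronglyMeasurable)
    (fun _ hφ => hardy_smooth hφ) (fun _ h => h.mono fun x hx => hx.div_const _)

lemma Adm.dilEst {Ω : Set E} {w : E → ℝ} {W : E → E} (h : Adm Ω w W) {t : ℝ}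
    (ht : 1 / 2 ≤ t) (ht1 : t ≤ 1) :
    eLpNorm (fun x => (D t w x - w x) / ‖x‖) 2 volume
      ≤ ENNReal.ofReal (4 * (1 - t)) * eLpNorm W 2 volume := by
  have ht0 : 0 < t := by linarith
  refine closure_bound h (fun w x => (D t w x - w x) / ‖x‖) 2 _ ENNReal.ofReal_ne_top
    (fun φ hφ => ?_) (fun φ hφ => dil_smooth hφ ht ht1) (fun φ h => ?_)
  · exact (((hφ.D_contDiff t).continuous.measurable.sub hφ.1.continuous.measurable).div
      measurable_norm).aestronglyMeasurable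
  · have hmp : Measure.QuasiMeasurePreserving (fun x : E => t⁻¹ • x) volume volume := by
      refine ⟨measurable_const_smul t⁻¹, ?_⟩
      rw [Measure.map_addHaar_smul volume (inv_ne_zero ht0.ne')]
      exact Measure.smul_absolutelyContinuous
    have h2 := hmp.ae h
    filter_upwards [h, h2] with x hx hx2
    exact ((hx2.const_mul _).sub hx).div_const _

end Pool.Agent.Helper13_HS
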