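import Pool.Agent.Helper13_HS.Main

/-!
# Nonexistence by the dilation argument: the contradiction
-/

set_option autoImplicit false

open MeasureTheory Filter Topology Set
open scoped ContDiff ENNReal

namespace Pool.Agent.Helper13_HS

lemma memLp_mul_cube {f g : E → ℝ} (hf : MemLp f 2 volume) (hg : MemLp g 2 volume) :
    Integrable (fun x => f x * g x) volume := hf.integrable_mul hg

/-- weight -/
lemma sqrt_smul_inv {t : ℝ} (ht : 0 < t) (x : E) :
    √‖t⁻¹ • x‖ * ‖t⁻¹ • x‖ = (√t ^ 3)⁻¹ * (√‖x‖ * ‖x‖) := by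
  have hs : 0 < √t := Real.sqrt_pos.2 ht
  have hs2 : √t ^ 2 = t := Real.sq_sqrt ht.le
  have e : √t ^ 3 = √t * t := by rw [pow_succ, hs2, mul_comm]
  rw [norm_smul, Real.norm_eq_abs, abs_of_pos (inv_pos.2 ht), Real.sqrt_mul (inv_pos.2 ht).le,
    Real.sqrt_inv, e]
  field_simp

lemma scale3 (w : E → ℝ) {t : ℝ} (ht : 0 < t) :
    ∫ x, D t w x ^ 3 / (√‖x‖ * ‖x‖) = ∫ x, w x ^ 3 / (√‖x‖ * ‖x‖) := by
  have hs : 0 < √t := Real.sqrt_pos.2 ht
  have hs2 : √t ^ 2 = t := Real.sq_sqrt ht.le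
  have h := Measure.integral_comp_inv_smul_of_nonneg (volume : Measure E)
    (fun x : E => w x ^ 3 / (√‖x‖ * ‖x‖)) ht.le
  have e : ∀ x : E, D t w x ^ 3 / (√‖x‖ * ‖x‖)
      = (t ^ 3)⁻¹ * (w (t⁻¹ • x) ^ 3 / (√‖t⁻¹ • x‖ * ‖t⁻¹ • x‖)) := by
    intro x
    rw [sqrt_smul_inv ht x, D, mul_pow]
    have e2 : t ^ 3 = √t ^ 3 * √t ^ 3 := by rw [← hs2]; ring_nf; rw [hs2]
    rw [e2]
    by_cases hx : √‖x‖ * ‖x‖ = 0
    · simp [hx]
    · field_simp
  simp_rw [e]
  rw [integral_const_mul, h]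
  simp
  field_simp

lemma scale4 (w : E → ℝ) {t : ℝ} (ht : 0 < t) :
    ∫ x, D t w x ^ 4 = t * ∫ x, w x ^ 4 := by
  have hs : 0 < √t := Real.sqrt_pos.2 ht
  have hs2 : √t ^ 2 = t := Real.sq_sqrt ht.le
  have h := Measure.integral_comp_inv_smul_of_nonneg (volume : Measure E)
    (fun x : E => w x ^ 4) ht.le
  have e : ∀ x : E, D t w x ^ 4 = (t ^ 2)⁻¹ * w (t⁻¹ • x) ^ 4 := by
    intro x
    rw [D, mul_pow]
    have e2 : t ^ 2 = √t ^ 4 := by rw [← hs2]; ring_nf; rw [hs2]
    rw [e2]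
    field_simp
  simp_rw [e]
  rw [integral_const_mul, h]
  simp
  field_simp

/-- There is no nontrivial solution of the weak equation on a domain which is star-shaped
with respect to the origin. -/
theorem no_solution {Ω : Set E} (hstar : ∀ t : ℝ, 0 < t → t ≤ 1 → ∀ x ∈ Ω, t • x ∈ Ω)
    {u : E → ℝ} {G : E → E} (h : Adm Ω u G)
    (hpos : 0 < ∫ x, u x ^ 4)
    (heq : ∀ ψ, Tst Ω ψ → ∫ x, (inner ℝ (G x) (gradient ψ x) : ℝ)
      = (∫ x, (u x ^ 2 / √‖x‖) * (ψ x / ‖x‖)) - ∫ x, u x ^ 3 * ψ x) : False := by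
  have hu2 := h.1
  have hG := h.2.1
  have hux := h.memLp_div
  have hu3 := h.memLp_cube
  have hum := h.1.1
  have hum' := h.1.1.aemeasurable
  have hnm : AEMeasurable (fun x : E => ‖x‖) volume := measurable_norm.aemeasurable
  have hsm : AEMeasurable (fun x : E => √‖x‖) volume :=
    (Real.continuous_sqrt.comp continuous_norm).measurable.aemeasurable
  -- the first coefficient
  have hf₁ : MemLp (fun x => u x ^ 2 / √‖x‖) 2 volume := by
    rw [memLp_two_iff_integrable_sq (show AEStronglyMeasurable (fun x => u x ^ 2 / √‖x‖) volume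
      from ((hum'.pow_const 2).div hsm).aestronglyMeasurable)]
    refine (memLp_mul_cube hux hu3).congr (ae_of_all _ fun x => ?_)
    show u x / ‖x‖ * u x ^ 3 = (u x ^ 2 / √‖x‖) ^ 2
    rw [div_pow, Real.sq_sqrt (norm_nonneg x)]
    ring
  have hu4 : Integrable (fun x => u x ^ 4) volume := by
    refine (memLp_mul_cube hu2 hu3).congr (ae_of_all _ fun x => ?_)
    show u x * u x ^ 3 = u x ^ 4
    ring
  obtain ⟨Q, hQ⟩ : ∃ Q, Q = ∫ x, u x ^ 4 := ⟨_, rfl⟩
  rw [← hQ] at hpos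
  have hext := fun {w : E → ℝ} {W : E → E} (hw : Adm Ω w W) => ext_eq hf₁ hu3 hG heq hw
  have hx1 := hext h
  -- the inequality at scale `t`
  obtain ⟨M, hM⟩ : ∃ M, M = (eLpNorm G 2 volume).toReal := ⟨_, rfl⟩
  obtain ⟨c3, hc3⟩ : ∃ c3, c3 = (eLpNorm (fun x => u x ^ 3) 2 volume).toReal := ⟨_, rfl⟩
  have hM0 : 0 ≤ M := hM ▸ ENNReal.toReal_nonneg
  have hc30 : 0 ≤ c3 := hc3 ▸ ENNReal.toReal_nonneg
  have main : ∀ t : ℝ, 1 / 2 ≤ t → t < 1 →
      ((1 - t) * Q / 4) ^ 2 ≤ 36 * c3 * (4 * (1 - t) * M) ^ 3 := by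
    intro t ht ht1
    have ht0 : 0 < t := by linarith
    have hd := h.dil ht0 (hstar t ht0 ht1.le)
    have hxt := hext hd
    have hDu2 := hd.1
    have hDx := hd.memLp_div
    have hD3 := hd.memLp_cube
    have hDm' := hd.1.1.aemeasurable
    have hDG := hd.2.1
    -- Cauchy-Schwarz
    have cs : ∫ x, (inner ℝ (G x) (D' t G x) : ℝ) ≤ ∫ x, (inner ℝ (G x) (G x) : ℝ) := by
      have i1 := integrable_inner hG hDG
      have i2 := integrable_inner hG hG
      have i3 := integrable_inner hDG hDG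
      have e3 : ∫ x, (inner ℝ (D' t G x) (D' t G x) : ℝ) = ∫ x, (inner ℝ (G x) (G x) : ℝ) := by
        have hsc := Measure.integral_comp_inv_smul_of_nonneg (volume : Measure E)
          (fun x : E => (inner ℝ (G x) (G x) : ℝ)) ht0.le
        have hs : 0 < √t := Real.sqrt_pos.2 ht0
        have hs2 : √t ^ 2 = t := Real.sq_sqrt ht0.le
        have e : ∀ x : E, (inner ℝ (D' t G x) (D' t G x) : ℝ)
            = (t ^ 3)⁻¹ * (inner ℝ (G (t⁻¹ • x)) (G (t⁻¹ • x)) : ℝ) := by
          intro x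
          have e2 : t ^ 3 = √t ^ 3 * √t ^ 3 := by rw [← hs2]; ring_nf; rw [hs2]
          rw [D', inner_smul_left, inner_smul_right, e2]
          simp only [conj_trivial]
          field_simp
        simp_rw [e]
        rw [integral_const_mul, hsc]
        simp
        field_simp
      have h1 : ∫ x, (inner ℝ (G x) (D' t G x) : ℝ)
          ≤ ∫ x, ((1 / 2) * (inner ℝ (G x) (G x) : ℝ) + (1 / 2) * inner ℝ (D' t G x) (D' t G x)) := by
        refine integral_mono i1 ((i2.const_mul _).add (i3.const_mul _)) fun x => ?_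
        have h0 : 0 ≤ (inner ℝ (G x - D' t G x) (G x - D' t G x) : ℝ) := real_inner_self_nonneg
        rw [inner_sub_left, inner_sub_right, inner_sub_right, real_inner_comm (D' t G x) (G x)] at h0
        show (inner ℝ (G x) (D' t G x) : ℝ) ≤ _
        rw [real_inner_comm (D' t G x) (G x)] at *
        linarith
      rw [integral_add (i2.const_mul _) (i3.const_mul _), integral_const_mul, integral_const_mul,
        e3] at h1
      linarith
    rw [hxt, hx1] at cs
    -- the subcritical term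
    have iB1 : Integrable (fun x => u x ^ 3 * u x) volume := memLp_mul_cube hu3 hu2
    have iBt : Integrable (fun x => u x ^ 3 * D t u x) volume := memLp_mul_cube hu3 hDu2
    have hB : (1 - t) * Q / 4 ≤ (∫ x, u x ^ 3 * u x) - ∫ x, u x ^ 3 * D t u x := by
      have iD4 : Integrable (fun x => D t u x ^ 4) volume := by
        refine (memLp_mul_cube hDu2 hD3).congr (ae_of_all _ fun x => ?_)
        show D t u x * D t u x ^ 3 = D t u x ^ 4
        ring
      have h1 : ∫ x, (D t u x ^ 4 - u x ^ 4 - 4 * (u x ^ 3 * D t u x - u x ^ 3 * u x)) ≥ 0 := by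
        refine integral_nonneg fun x => ?_
        show 0 ≤ D t u x ^ 4 - u x ^ 4 - 4 * (u x ^ 3 * D t u x - u x ^ 3 * u x)
        have : D t u x ^ 4 - u x ^ 4 - 4 * (u x ^ 3 * D t u x - u x ^ 3 * u x)
            = (D t u x - u x) ^ 2 * ((D t u x + u x) ^ 2 + 2 * u x ^ 2) := by ring
        rw [this]
        positivity
      have i5 : Integrable (fun x => D t u x ^ 4 - u x ^ 4) volume := iD4.sub hu4
      have i6 : Integrable (fun x => 4 * (u x ^ 3 * D t u x - u x ^ 3 * u x)) volume :=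
        (iBt.sub iB1).const_mul 4
      rw [integral_sub i5 i6, integral_sub iD4 hu4, integral_const_mul, integral_sub iBt iB1,
        scale4 u ht0, ← hQ] at h1
      linarith
    -- the critical term
    have hA : (1 - t) * Q / 4 ≤ (∫ x, u x ^ 2 / √‖x‖ * (u x / ‖x‖))
        - ∫ x, u x ^ 2 / √‖x‖ * (D t u x / ‖x‖) := by linarith
    obtain ⟨v, hv⟩ : ∃ v : E → ℝ, v = fun x => D t u x - u x := ⟨_, rfl⟩
    obtain ⟨P, hP⟩ : ∃ P : E → ℝ, P = fun x => |v x| / ‖x‖ := ⟨_, rfl⟩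
    obtain ⟨S, hS⟩ : ∃ S : E → ℝ, S = fun x => (|u x| + |v x|) ^ 2 * |v x| := ⟨_, rfl⟩
    obtain ⟨R, hR⟩ : ∃ R : E → ℝ, R = fun x => (|u x| + |v x|) * |v x| / √‖x‖ := ⟨_, rfl⟩
    have hvm : AEMeasurable v volume := by rw [hv]; exact hDm'.sub hum'
    have hPm : AEMeasurable P volume := by rw [hP]; exact hvm.norm.div hnm
    have hSm : AEMeasurable S volume := by
      rw [hS]; exact ((hum'.norm.add hvm.norm).pow_const 2).mul hvm.norm
    have hRm : AEMeasurable R volume := by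
      rw [hR]; exact ((hum'.norm.add hvm.norm).mul hvm.norm).div hsm
    have nP : eLpNorm P 2 volume ≤ ENNReal.ofReal (4 * (1 - t)) * eLpNorm G 2 volume := by
      refine le_trans (le_of_eq ?_) (h.dilEst ht ht1.le)
      refine eLpNorm_congr_norm_ae (ae_of_all _ fun x => ?_)
      rw [hP, hv]
      simp
    have nP' : eLpNorm P 2 volume ≠ ⊤ :=
      (lt_of_le_of_lt nP (ENNReal.mul_lt_top ENNReal.ofReal_lt_top hG.2)).ne
    have nS : eLpNorm S 2 volume ≤ 36 * eLpNorm (fun x => u x ^ 3) 2 volume := by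
      have b1 : eLpNorm S 2 volume
          ≤ eLpNorm ((32 : ℝ) • (fun x => |u x ^ 3|) + (4 : ℝ) • (fun x => |D t u x ^ 3|)) 2 volume := by
        refine eLpNorm_mono fun x => ?_
        have hv' : |v x| ≤ |D t u x| + |u x| := by rw [hv]; exact abs_sub _ _
        have p1 := abs_nonneg (u x)
        have p2 := abs_nonneg (v x)
        have p3 := abs_nonneg (D t u x)
        have e : ((32 : ℝ) • (fun x => |u x ^ 3|) + (4 : ℝ) • (fun x => |D t u x ^ 3|)) x
            = 32 * |u x| ^ 3 + 4 * |D t u x| ^ 3 := by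
          simp [abs_pow]
        have eS : S x = (|u x| + |v x|) ^ 2 * |v x| := by rw [hS]
        rw [e, eS, Real.norm_of_nonneg (by positivity), Real.norm_of_nonneg (by positivity)]
        have q1 : (|u x| + |v x|) ^ 2 * |v x| ≤ (2 * |u x| + |D t u x|) ^ 3 := by
          have r1 : |u x| + |v x| ≤ 2 * |u x| + |D t u x| := by linarith
          have r2 : |v x| ≤ 2 * |u x| + |D t u x| := by linarith
          calc (|u x| + |v x|) ^ 2 * |v x| ≤ (2 * |u x| + |D t u x|) ^ 2 * (2 * |u x| + |D t u x|) := by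
                gcongr
            _ = (2 * |u x| + |D t u x|) ^ 3 := by ring
        have q2 : (2 * |u x| + |D t u x|) ^ 3 ≤ 32 * |u x| ^ 3 + 4 * |D t u x| ^ 3 := by
          nlinarith [mul_nonneg (add_nonneg (mul_nonneg zero_le_two p1) p3)
            (sq_nonneg (2 * |u x| - |D t u x|))]
        linarith
      refine b1.trans ?_
      have m1 : AEStronglyMeasurable ((32 : ℝ) • (fun x => |u x ^ 3|)) volume :=
        (((hum'.pow_const 3).norm).const_smul (32 : ℝ)).aestronglyMeasurable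
      have m2 : AEStronglyMeasurable ((4 : ℝ) • (fun x => |D t u x ^ 3|)) volume :=
        (((hDm'.pow_const 3).norm).const_smul (4 : ℝ)).aestronglyMeasurable
      refine (eLpNorm_add_le m1 m2 (by norm_num)).trans ?_
      rw [eLpNorm_const_smul, eLpNorm_const_smul]
      have e1 : eLpNorm (fun x => |u x ^ 3|) 2 volume = eLpNorm (fun x => u x ^ 3) 2 volume :=
        eLpNorm_congr_norm_ae (ae_of_all _ fun x => by simp)
      have e2 : eLpNorm (fun x => |D t u x ^ 3|) 2 volume = eLpNorm (fun x => u x ^ 3) 2 volume := by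
        rw [← eL_D3 u ht0]
        exact eLpNorm_congr_norm_ae (ae_of_all _ fun x => by simp)
      rw [e1, e2, ← add_mul]
      refine le_of_eq ?_
      congr 1
      rw [Real.enorm_eq_ofReal (by norm_num), Real.enorm_eq_ofReal (by norm_num),
        ← ENNReal.ofReal_add (by norm_num) (by norm_num)]
      norm_num
    -- Hölder twice
    have nR : eLpNorm R 2 volume ^ 2 ≤ eLpNorm P 2 volume * eLpNorm S 2 volume := by
      rw [eLpNorm_two_sq]
      have e1 : ∀ x, ‖R x‖ₑ ^ 2 = ‖P x * S x‖ₑ := by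
        intro x
        rw [← enorm_pow, hR, hP, hS]
        congr 1
        simp only [div_pow, mul_pow, Real.sq_sqrt (norm_nonneg x)]
        ring
      simp_rw [e1]
      rw [← eLpNorm_one_eq_lintegral_enorm]
      have h2 := eLpNorm_le_eLpNorm_mul_eLpNorm'_of_norm (p := 2) (q := 2) (r := 1)
        hPm.aestronglyMeasurable hSm.aestronglyMeasurable
        (fun a b => a * b) 1 (ae_of_all _ fun x => by simp)
      simpa using h2
    have nR' : eLpNorm R 2 volume ≠ ⊤ := by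
      intro h0
      rw [h0] at nR
      have : eLpNorm P 2 volume * eLpNorm S 2 volume < ⊤ :=
        ENNReal.mul_lt_top nP'.lt_top (lt_of_le_of_lt nS (ENNReal.mul_lt_top (by norm_num) hu3.2))
      exact absurd nR (not_le.2 (by simpa using this))
    have hPL : MemLp P 2 volume := ⟨hPm.aestronglyMeasurable, nP'.lt_top⟩
    have hRL : MemLp R 2 volume := ⟨hRm.aestronglyMeasurable, nR'.lt_top⟩
    have iPR : Integrable (fun x => P x * R x) volume := memLp_mul_cube hPL hRL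
    have nPR : ‖∫ x, P x * R x‖ₑ ≤ eLpNorm P 2 volume * eLpNorm R 2 volume :=
      enorm_integral_mul_le hPL.1 hRL.1
    -- comparison
    have iA1 : Integrable (fun x => u x ^ 2 / √‖x‖ * (u x / ‖x‖)) volume := memLp_mul_cube hf₁ hux
    have iAt : Integrable (fun x => u x ^ 2 / √‖x‖ * (D t u x / ‖x‖)) volume :=
      memLp_mul_cube hf₁ hDx
    have hf₁' : MemLp (fun x => D t u x ^ 2 / √‖x‖) 2 volume := by
      rw [memLp_two_iff_integrable_sq (show AEStronglyMeasurable (fun x => D t u x ^ 2 / √‖x‖)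
        volume from ((hDm'.pow_const 2).div hsm).aestronglyMeasurable)]
      refine (memLp_mul_cube hDx hD3).congr (ae_of_all _ fun x => ?_)
      show D t u x / ‖x‖ * D t u x ^ 3 = (D t u x ^ 2 / √‖x‖) ^ 2
      rw [div_pow, Real.sq_sqrt (norm_nonneg x)]
      ring
    have iC1 : Integrable (fun x => u x ^ 3 / (√‖x‖ * ‖x‖)) volume := by
      refine iA1.congr (ae_of_all _ fun x => ?_)
      show u x ^ 2 / √‖x‖ * (u x / ‖x‖) = u x ^ 3 / (√‖x‖ * ‖x‖)
      rw [div_mul_div_comm]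
      ring
    have iCt : Integrable (fun x => D t u x ^ 3 / (√‖x‖ * ‖x‖)) volume := by
      refine (memLp_mul_cube hf₁' hDx).congr (ae_of_all _ fun x => ?_)
      show D t u x ^ 2 / √‖x‖ * (D t u x / ‖x‖) = D t u x ^ 3 / (√‖x‖ * ‖x‖)
      rw [div_mul_div_comm]
      ring
    have hcmp : (∫ x, u x ^ 2 / √‖x‖ * (u x / ‖x‖)) - ∫ x, u x ^ 2 / √‖x‖ * (D t u x / ‖x‖)
        ≤ ∫ x, P x * R x := by
      have z : ∫ x, (D t u x ^ 3 / (√‖x‖ * ‖x‖) - u x ^ 3 / (√‖x‖ * ‖x‖)) = 0 := by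
        rw [integral_sub iCt iC1, scale3 u ht0, sub_self]
      have e1 : (∫ x, u x ^ 2 / √‖x‖ * (u x / ‖x‖)) - ∫ x, u x ^ 2 / √‖x‖ * (D t u x / ‖x‖)
          = ∫ x, ((u x ^ 2 / √‖x‖ * (u x / ‖x‖) - u x ^ 2 / √‖x‖ * (D t u x / ‖x‖))
            + (1 / 3) * (D t u x ^ 3 / (√‖x‖ * ‖x‖) - u x ^ 3 / (√‖x‖ * ‖x‖))) := by
        have i7 : Integrable (fun x => u x ^ 2 / √‖x‖ * (u x / ‖x‖)
            - u x ^ 2 / √‖x‖ * (D t u x / ‖x‖)) volume := iA1.sub iAt
        have i8 : Integrable (fun x => (1 / 3 : ℝ) * (D t u x ^ 3 / (√‖x‖ * ‖x‖)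
            - u x ^ 3 / (√‖x‖ * ‖x‖))) volume := (iCt.sub iC1).const_mul (1 / 3)
        rw [integral_add i7 i8, integral_const_mul, z, integral_sub iA1 iAt]
        ring
      rw [e1]
      refine integral_mono ((iA1.sub iAt).add ((iCt.sub iC1).const_mul (1 / 3))) iPR fun x => ?_
      show (u x ^ 2 / √‖x‖ * (u x / ‖x‖) - u x ^ 2 / √‖x‖ * (D t u x / ‖x‖))
            + (1 / 3) * (D t u x ^ 3 / (√‖x‖ * ‖x‖) - u x ^ 3 / (√‖x‖ * ‖x‖)) ≤ P x * R x
      have hD : D t u x = u x + v x := by rw [hv]; ring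
      have e2 : (u x ^ 2 / √‖x‖ * (u x / ‖x‖) - u x ^ 2 / √‖x‖ * (D t u x / ‖x‖))
            + (1 / 3) * (D t u x ^ 3 / (√‖x‖ * ‖x‖) - u x ^ 3 / (√‖x‖ * ‖x‖))
            = (u x + v x / 3) * v x ^ 2 / (√‖x‖ * ‖x‖) := by
        rw [hD]
        by_cases hx : ‖x‖ = 0
        · simp [hx]
        · have hx' : 0 < ‖x‖ := lt_of_le_of_ne (norm_nonneg x) (Ne.symm hx)
          have hsx : 0 < √‖x‖ := Real.sqrt_pos.2 hx'
          field_simp
          ring
      have e3 : P x * R x = (|u x| + |v x|) * v x ^ 2 / (√‖x‖ * ‖x‖) := by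
        rw [hP, hR]
        simp only
        rw [← sq_abs (v x), div_mul_div_comm]
        ring
      rw [e2, e3]
      gcongr
      · exact le_abs_self _
      · have := le_abs_self (v x)
        have := abs_nonneg (v x)
        linarith
    -- conclusion
    have hfin : (1 - t) * Q / 4 ≤ ∫ x, P x * R x := hA.trans hcmp
    have h0 : 0 ≤ (1 - t) * Q / 4 := by
      have : 0 < 1 - t := by linarith
      positivity
    have hsq : ENNReal.ofReal ((1 - t) * Q / 4) ^ 2
        ≤ 36 * eLpNorm (fun x => u x ^ 3) 2 volume *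
          (ENNReal.ofReal (4 * (1 - t)) * eLpNorm G 2 volume) ^ 3 := by
      calc ENNReal.ofReal ((1 - t) * Q / 4) ^ 2 ≤ ‖∫ x, P x * R x‖ₑ ^ 2 := by
            gcongr
            rw [Real.enorm_eq_ofReal (h0.trans hfin)]
            exact ENNReal.ofReal_le_ofReal hfin
        _ ≤ (eLpNorm P 2 volume * eLpNorm R 2 volume) ^ 2 := by gcongr
        _ = eLpNorm P 2 volume ^ 2 * eLpNorm R 2 volume ^ 2 := by rw [mul_pow]
        _ ≤ eLpNorm P 2 volume ^ 2 * (eLpNorm P 2 volume * eLpNorm S 2 volume) := by gcongr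
        _ = eLpNorm S 2 volume * eLpNorm P 2 volume ^ 3 := by ring
        _ ≤ _ := by gcongr
    have hr := ENNReal.toReal_mono (by
      refine ENNReal.mul_ne_top (ENNReal.mul_ne_top (by norm_num) hu3.2.ne)
        (ENNReal.pow_ne_top (ENNReal.mul_ne_top ENNReal.ofReal_ne_top hG.2.ne))) hsq
    rw [ENNReal.toReal_pow, ENNReal.toReal_ofReal h0, ENNReal.toReal_mul, ENNReal.toReal_mul,
      ENNReal.toReal_pow, ENNReal.toReal_mul, ENNReal.toReal_ofReal (by linarith), ← hM, ← hc3] at hr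
    simpa using hr
  -- let `t` tend to `1`
  have h2 : ∀ ε : ℝ, 0 < ε → ε ≤ 1 / 2 → Q ^ 2 / 16 ≤ (36 * c3 * (4 * M) ^ 3) * ε := by
    intro ε he he2
    have := main (1 - ε) (by linarith) (by linarith)
    have e1 : ((1 - (1 - ε)) * Q / 4) ^ 2 = ε ^ 2 * (Q ^ 2 / 16) := by ring
    have e2 : 36 * c3 * (4 * (1 - (1 - ε)) * M) ^ 3 = ε ^ 2 * ((36 * c3 * (4 * M) ^ 3) * ε) := by ring
    rw [e1, e2] at this
    exact le_of_mul_le_mul_left this (by positivity)
  obtain ⟨K, hK⟩ : ∃ K, K = 36 * c3 * (4 * M) ^ 3 := ⟨_, rfl⟩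
  rw [← hK] at h2
  have hK0 : 0 ≤ K := by rw [hK]; positivity
  have hQ2 : 0 < Q ^ 2 / 16 := by positivity
  have h3 := h2 (min (1 / 2) (Q ^ 2 / 16 / (2 * (K + 1)))) (by positivity) (min_le_left _ _)
  have h4 : K * min (1 / 2) (Q ^ 2 / 16 / (2 * (K + 1))) ≤ K * (Q ^ 2 / 16 / (2 * (K + 1))) := by
    gcongr
    exact min_le_right _ _
  have h5 : K * (Q ^ 2 / 16 / (2 * (K + 1))) ≤ Q ^ 2 / 16 / 2 := by
    rw [mul_div_assoc', div_le_div_iff₀ (by positivity) (by norm_num)]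
    nlinarith
  linarith

end Pool.Agent.Helper13_HS
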