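import Pool.Agent.Helper13_HS.Est

/-!
# Nonexistence by the dilation argument
-/

set_option autoImplicit false

open MeasureTheory Filter Topology Set
open scoped ContDiff ENNReal

namespace Pool.Agent.Helper13_HS

lemma Adm.sub_tst {Ω : Set E} {w : E → ℝ} {W : E → E} (h : Adm Ω w W) {ψ : E → ℝ}
    (hψ : Tst univ ψ) : Adm univ (fun x => ψ x - w x) (fun x => gradient ψ x - W x) := by
  obtain ⟨hw, hW, φ, hφ, h1, h2⟩ := h
  refine ⟨(hψ.memLp 2).sub hw, (hψ.memLp_gradient 2).sub hW, fun n x => ψ x - φ n x,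
    fun n => hψ.sub (hφ n).toUniv, ?_, ?_⟩
  · refine h1.congr fun n => ?_
    refine eLpNorm_congr_norm_ae (ae_of_all _ fun x => ?_)
    rw [← norm_neg]
    congr 1
    ring
  · refine h2.congr fun n => ?_
    refine eLpNorm_congr_norm_ae (ae_of_all _ fun x => ?_)
    have e : gradient (fun x => ψ x - φ n x) x - (gradient ψ x - W x)
        = -(gradient (φ n) x - W x) := by
      rw [gradient_sub' hψ.1 (hφ n).1]
      abel
    rw [e, norm_neg]

/-- Hölder for a bilinear expression -/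
lemma enorm_integral_mul_le {f g : E → ℝ} (hf : AEStronglyMeasurable f volume)
    (hg : AEStronglyMeasurable g volume) :
    ‖∫ x, f x * g x‖ₑ ≤ eLpNorm f 2 volume * eLpNorm g 2 volume := by
  have h1 : ‖∫ x, f x * g x‖ₑ ≤ eLpNorm (fun x => f x * g x) 1 volume := by
    rw [eLpNorm_one_eq_lintegral_enorm]
    exact enorm_integral_le_lintegral_enorm _
  have h2 := eLpNorm_le_eLpNorm_mul_eLpNorm'_of_norm (p := 2) (q := 2) (r := 1) hf hg
    (fun a b => a * b) 1 (ae_of_all _ fun x => by simp)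
  simpa using h1.trans h2

lemma enorm_integral_inner_le {f g : E → E} (hf : AEStronglyMeasurable f volume)
    (hg : AEStronglyMeasurable g volume) :
    ‖∫ x, (inner ℝ (f x) (g x) : ℝ)‖ₑ ≤ eLpNorm f 2 volume * eLpNorm g 2 volume := by
  have h1 : ‖∫ x, (inner ℝ (f x) (g x) : ℝ)‖ₑ
      ≤ eLpNorm (fun x => (inner ℝ (f x) (g x) : ℝ)) 1 volume := by
    rw [eLpNorm_one_eq_lintegral_enorm]
    exact enorm_integral_le_lintegral_enorm _
  have h2 := eLpNorm_le_eLpNorm_mul_eLpNorm'_of_norm (p := 2) (q := 2) (r := 1) hf hg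
    (fun a b => (inner ℝ a b : ℝ)) 1 (ae_of_all _ fun x => by
      simpa using norm_inner_le_norm (𝕜 := ℝ) (f x) (g x))
  simpa using h1.trans h2

lemma tendsto_integral_mul {f : E → ℝ} {g : ℕ → E → ℝ} {g' : E → ℝ} (hf : MemLp f 2 volume)
    (hg : ∀ n, MemLp (g n) 2 volume) (hg' : MemLp g' 2 volume)
    (h : Tendsto (fun n => eLpNorm (fun x => g n x - g' x) 2 volume) atTop (𝓝 0)) :
    Tendsto (fun n => ∫ x, f x * g n x) atTop (𝓝 (∫ x, f x * g' x)) := by
  rw [tendsto_iff_edist_tendsto_0]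
  have h1 : ∀ n, edist (∫ x, f x * g n x) (∫ x, f x * g' x)
      ≤ eLpNorm f 2 volume * eLpNorm (fun x => g n x - g' x) 2 volume := by
    intro n
    have i1 : Integrable (fun x => f x * g n x) volume := hf.integrable_mul (hg n)
    have i2 : Integrable (fun x => f x * g' x) volume := hf.integrable_mul hg'
    rw [edist_eq_enorm_sub, ← integral_sub i1 i2]
    have e : (fun x => f x * g n x - f x * g' x) = fun x => f x * (g n x - g' x) := by
      funext x; ring
    rw [e]
    exact enorm_integral_mul_le hf.1 ((hg n).1.sub hg'.1)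
  have h2 : Tendsto (fun n => eLpNorm f 2 volume * eLpNorm (fun x => g n x - g' x) 2 volume)
      atTop (𝓝 0) := by
    have := ENNReal.Tendsto.const_mul h (Or.inr hf.2.ne)
    simpa using this
  exact tendsto_of_tendsto_of_tendsto_of_le_of_le tendsto_const_nhds h2 (fun n => by simp) h1

lemma integrable_inner {f g : E → E} (hf : MemLp f 2 volume) (hg : MemLp g 2 volume) :
    Integrable (fun x => (inner ℝ (f x) (g x) : ℝ)) volume := by
  have h : MemLp (fun x => (inner ℝ (f x) (g x) : ℝ)) 1 volume := by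
    refine MemLp.of_bilin (p := 2) (q := 2) (r := 1) (fun a b => (inner ℝ a b : ℝ)) 1 hf hg
      (hf.1.inner hg.1) (ae_of_all _ fun x => ?_)
    have := norm_inner_le_norm (𝕜 := ℝ) (f x) (g x)
    rw [one_mul]
    exact_mod_cast this
  exact memLp_one_iff_integrable.1 h

lemma tendsto_integral_inner {f : E → E} {g : ℕ → E → E} {g' : E → E} (hf : MemLp f 2 volume)
    (hg : ∀ n, MemLp (g n) 2 volume) (hg' : MemLp g' 2 volume)
    (h : Tendsto (fun n => eLpNorm (fun x => g n x - g' x) 2 volume) atTop (𝓝 0)) :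
    Tendsto (fun n => ∫ x, (inner ℝ (f x) (g n x) : ℝ)) atTop
      (𝓝 (∫ x, (inner ℝ (f x) (g' x) : ℝ))) := by
  rw [tendsto_iff_edist_tendsto_0]
  have h1 : ∀ n, edist (∫ x, (inner ℝ (f x) (g n x) : ℝ)) (∫ x, (inner ℝ (f x) (g' x) : ℝ))
      ≤ eLpNorm f 2 volume * eLpNorm (fun x => g n x - g' x) 2 volume := by
    intro n
    rw [edist_eq_enorm_sub, ← integral_sub (integrable_inner hf (hg n)) (integrable_inner hf hg')]
    have e : (fun x => (inner ℝ (f x) (g n x) : ℝ) - inner ℝ (f x) (g' x))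
        = fun x => (inner ℝ (f x) (g n x - g' x) : ℝ) := by
      funext x; rw [inner_sub_right]
    rw [e]
    exact enorm_integral_inner_le hf.1 ((hg n).1.sub hg'.1)
  have h2 : Tendsto (fun n => eLpNorm f 2 volume * eLpNorm (fun x => g n x - g' x) 2 volume)
      atTop (𝓝 0) := by
    have := ENNReal.Tendsto.const_mul h (Or.inr hf.2.ne)
    simpa using this
  exact tendsto_of_tendsto_of_tendsto_of_le_of_le tendsto_const_nhds h2 (fun n => by simp) h1

lemma Adm.memLp_div {Ω : Set E} {w : E → ℝ} {W : E → E} (h : Adm Ω w W) :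
    MemLp (fun x => w x / ‖x‖) 2 volume :=
  ⟨(h.1.1.aemeasurable.div measurable_norm.aemeasurable).aestronglyMeasurable, lt_of_le_of_lt h.hardy
    (ENNReal.mul_lt_top (by norm_num) h.2.1.2)⟩

lemma Adm.memLp_cube {Ω : Set E} {w : E → ℝ} {W : E → E} (h : Adm Ω w W) :
    MemLp (fun x => w x ^ 3) 2 volume := by
  have h6 : MemLp w 6 volume := ⟨h.1.1, lt_of_le_of_lt h.sob
    (ENNReal.mul_lt_top CS_ne_top.lt_top h.2.1.2)⟩
  rw [memLp_two_iff_integrable_sq (show AEStronglyMeasurable (fun x => w x ^ 3) volume from h.1.1.pow 3)]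
  have := h6.integrable_norm_pow (p := 6) (by norm_num)
  refine this.congr (ae_of_all _ fun x => ?_)
  show ‖w x‖ ^ 6 = (w x ^ 3) ^ 2
  rw [Real.norm_eq_abs, ← pow_mul, show 3 * 2 = 6 from rfl]
  exact (show Even 6 by decide).pow_abs _

/-- extension of the weak equation to the closure of the test functions -/
lemma ext_eq {Ω : Set E} {f₁ f₂ : E → ℝ} {G : E → E} (hf₁ : MemLp f₁ 2 volume)
    (hf₂ : MemLp f₂ 2 volume) (hG : MemLp G 2 volume)
    (heq : ∀ ψ, Tst Ω ψ → ∫ x, (inner ℝ (G x) (gradient ψ x) : ℝ)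
      = (∫ x, f₁ x * (ψ x / ‖x‖)) - ∫ x, f₂ x * ψ x)
    {w : E → ℝ} {W : E → E} (h : Adm Ω w W) :
    ∫ x, (inner ℝ (G x) (W x) : ℝ) = (∫ x, f₁ x * (w x / ‖x‖)) - ∫ x, f₂ x * w x := by
  have h' := h
  obtain ⟨hw, hW, φ, hφ, h1, h2⟩ := h
  have t1 := tendsto_integral_inner hG (fun n => (hφ n).memLp_gradient 2) hW h2
  have t3 := tendsto_integral_mul hf₂ (fun n => (hφ n).memLp 2) hw h1
  have hdiv : ∀ n, MemLp (fun x => φ n x / ‖x‖) 2 volume := by
    intro n
    refine ⟨((hφ n).1.continuous.measurable.div measurable_norm).aestronglyMeasurable, ?_⟩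
    exact lt_of_le_of_lt (hardy_smooth (hφ n).toUniv)
      (ENNReal.mul_lt_top (by norm_num) ((hφ n).memLp_gradient 2).2)
  have t2 := tendsto_integral_mul hf₁ hdiv h'.memLp_div (by
    have b : ∀ n, eLpNorm (fun x => φ n x / ‖x‖ - w x / ‖x‖) 2 volume
        ≤ 2 * eLpNorm (fun x => gradient (φ n) x - W x) 2 volume := by
      intro n
      have := (h'.sub_tst (hφ n).toUniv).hardy
      simpa [sub_div] using this
    have h3 : Tendsto (fun n => 2 * eLpNorm (fun x => gradient (φ n) x - W x) 2 volume)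
        atTop (𝓝 0) := by
      have := ENNReal.Tendsto.const_mul h2 (Or.inr (by norm_num : (2 : ℝ≥0∞) ≠ ⊤))
      simpa using this
    exact tendsto_of_tendsto_of_tendsto_of_le_of_le tendsto_const_nhds h3 (fun n => by simp) b)
  have t4 := t2.sub t3
  exact tendsto_nhds_unique t1 (t4.congr fun n => (heq (φ n) (hφ n)).symm)

end Pool.Agent.Helper13_HS
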