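import Pool.Agent.Helper13_HS.Basic

/-!
# Dilations
-/

set_option autoImplicit false

open MeasureTheory Filter Topology Set
open scoped ContDiff ENNReal

namespace Pool.Agent.Helper13_HS

lemma lint_scale (f : E → ℝ≥0∞) {t : ℝ} (ht : 0 < t) :
    ∫⁻ x, f (t⁻¹ • x) = ENNReal.ofReal (t ^ 3) * ∫⁻ x, f x := by
  have h1 : MeasurableEmbedding (fun x : E => t⁻¹ • x) :=
    (Homeomorph.smulOfNeZero t⁻¹ (inv_ne_zero ht.ne')).measurableEmbedding
  rw [← h1.lintegral_map, Measure.map_addHaar_smul volume (inv_ne_zero ht.ne'),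
    lintegral_smul_measure]
  congr 2
  simp [abs_of_pos ht]

lemma eL_scale {F : Type*} [NormedAddCommGroup F] [NormedSpace ℝ F] (f : E → F) {t : ℝ}
    (ht : 0 < t) (c : ℝ) :
    eLpNorm (fun x => c • f (t⁻¹ • x)) 2 volume
      = ENNReal.ofReal (|c| * √t ^ 3) * eLpNorm f 2 volume := by
  have h : eLpNorm (fun x => c • f (t⁻¹ • x)) 2 volume ^ 2
      = (ENNReal.ofReal (|c| * √t ^ 3) * eLpNorm f 2 volume) ^ 2 := by
    rw [mul_pow, eLpNorm_two_sq, eLpNorm_two_sq]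
    have e1 : ∀ x : E, ‖c • f (t⁻¹ • x)‖ₑ ^ 2 = ENNReal.ofReal (|c| ^ 2) * (fun y => ‖f y‖ₑ ^ 2) (t⁻¹ • x) := by
      intro x
      rw [enorm_smul, mul_pow, ← ofReal_norm, Real.norm_eq_abs, ENNReal.ofReal_pow (abs_nonneg c)]
    simp_rw [e1]
    rw [lintegral_const_mul' _ _ (by simp), lint_scale (fun y => ‖f y‖ₑ ^ 2) ht, ← mul_assoc,
      ← ENNReal.ofReal_mul (by positivity), ← ENNReal.ofReal_pow (by positivity)]
    congr 2
    rw [mul_pow, ← pow_mul, mul_comm 3 2, pow_mul, Real.sq_sqrt ht.le]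
  exact le_antisymm ((ENNReal.pow_le_pow_left_iff (by norm_num : (2 : ℕ) ≠ 0)).1 h.le)
    ((ENNReal.pow_le_pow_left_iff (by norm_num : (2 : ℕ) ≠ 0)).1 h.ge)

/-- dilation -/
noncomputable def D (t : ℝ) (w : E → ℝ) (x : E) : ℝ := (√t)⁻¹ * w (t⁻¹ • x)

/-- dilation of gradients -/
noncomputable def D' (t : ℝ) (W : E → E) (x : E) : E := (√t ^ 3)⁻¹ • W (t⁻¹ • x)

lemma eL_D (w : E → ℝ) {t : ℝ} (ht : 0 < t) :
    eLpNorm (D t w) 2 volume = ENNReal.ofReal t * eLpNorm w 2 volume := by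
  have h := eL_scale w ht (√t)⁻¹
  have hs : 0 < √t := Real.sqrt_pos.2 ht
  have e : |(√t)⁻¹| * √t ^ 3 = t := by
    rw [abs_of_pos (by positivity)]
    have : √t ^ 2 = t := Real.sq_sqrt ht.le
    field_simp
    exact this
  rw [e] at h
  exact h

lemma eL_D' (W : E → E) {t : ℝ} (ht : 0 < t) :
    eLpNorm (D' t W) 2 volume = eLpNorm W 2 volume := by
  have h := eL_scale W ht (√t ^ 3)⁻¹
  have hs : 0 < √t := Real.sqrt_pos.2 ht
  have e : |(√t ^ 3)⁻¹| * √t ^ 3 = 1 := by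
    rw [abs_of_pos (by positivity)]
    field_simp
  rw [e, ENNReal.ofReal_one, one_mul] at h
  exact h

lemma D_div (w : E → ℝ) {t : ℝ} (ht : 0 < t) (x : E) :
    D t w x / ‖x‖ = (√t ^ 3)⁻¹ • (fun y => w y / ‖y‖) (t⁻¹ • x) := by
  have hs : 0 < √t := Real.sqrt_pos.2 ht
  have hs2 : √t ^ 2 = t := Real.sq_sqrt ht.le
  simp only [D, smul_eq_mul, norm_smul, norm_inv, Real.norm_eq_abs, abs_of_pos ht]
  by_cases hx : ‖x‖ = 0
  · simp [hx]
  · have e : √t ^ 3 = √t * t := by rw [pow_succ, hs2, mul_comm]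
    rw [e]
    field_simp

lemma eL_Dx (w : E → ℝ) {t : ℝ} (ht : 0 < t) :
    eLpNorm (fun x => D t w x / ‖x‖) 2 volume = eLpNorm (fun x => w x / ‖x‖) 2 volume := by
  have h := eL_scale (fun y => w y / ‖y‖) ht (√t ^ 3)⁻¹
  have hs : 0 < √t := Real.sqrt_pos.2 ht
  have e : |(√t ^ 3)⁻¹| * √t ^ 3 = 1 := by
    rw [abs_of_pos (by positivity)]
    field_simp
  rw [e] at h
  have e2 : (fun x => D t w x / ‖x‖) = fun x => (√t ^ 3)⁻¹ • (fun y => w y / ‖y‖) (t⁻¹ • x) :=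
    funext fun x => D_div w ht x
  rw [e2, h]
  simp

lemma eL_D3 (w : E → ℝ) {t : ℝ} (ht : 0 < t) :
    eLpNorm (fun x => D t w x ^ 3) 2 volume = eLpNorm (fun x => w x ^ 3) 2 volume := by
  have h := eL_scale (fun y => w y ^ 3) ht (√t ^ 3)⁻¹
  have hs : 0 < √t := Real.sqrt_pos.2 ht
  have e : |(√t ^ 3)⁻¹| * √t ^ 3 = 1 := by
    rw [abs_of_pos (by positivity)]
    field_simp
  rw [e] at h
  have e2 : (fun x => D t w x ^ 3) = fun x => (√t ^ 3)⁻¹ • (fun y => w y ^ 3) (t⁻¹ • x) := by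
    funext x
    simp [D, mul_pow]
  rw [e2, h]
  simp

lemma Tst.D_contDiff {Ω : Set E} {φ : E → ℝ} (h : Tst Ω φ) (t : ℝ) :
    ContDiff ℝ ((⊤ : ℕ∞) : WithTop ℕ∞) (D t φ) := by
  unfold D
  exact contDiff_const.mul (h.1.comp (contDiff_const_smul t⁻¹))

lemma gradient_D {φ : E → ℝ} (h : ContDiff ℝ ((⊤ : ℕ∞) : WithTop ℕ∞) φ) {t : ℝ} (ht : 0 < t) (x : E) :
    gradient (D t φ) x = D' t (gradient φ) x := by
  have hs : 0 < √t := Real.sqrt_pos.2 ht
  have hs2 : √t ^ 2 = t := Real.sq_sqrt ht.le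
  have h1 : HasFDerivAt φ (fderiv ℝ φ (t⁻¹ • x)) (t⁻¹ • x) :=
    ((h.differentiable (by simp)) _).hasFDerivAt
  have h2 : HasFDerivAt (fun y : E => t⁻¹ • y) (t⁻¹ • ContinuousLinearMap.id ℝ E) x :=
    (hasFDerivAt_id x).const_smul t⁻¹
  have h3 := (h1.comp x h2).const_mul ((√t)⁻¹)
  have h4 : fderiv ℝ (D t φ) x = (√t ^ 3)⁻¹ • fderiv ℝ φ (t⁻¹ • x) := by
    have h5 : HasFDerivAt (D t φ) _ x := h3
    rw [h5.fderiv]
    ext v
    have e : √t ^ 3 = √t * t := by rw [pow_succ, hs2, mul_comm]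
    simp only [smul_apply, ContinuousLinearMap.comp_apply, ContinuousLinearMap.id_apply,
      map_smul, smul_eq_mul, e]
    field_simp
  unfold D' gradient
  rw [h4, map_smul]

lemma Tst.D {Ω : Set E} {φ : E → ℝ} (h : Tst Ω φ) {t : ℝ} (ht : 0 < t)
    (hΩ : ∀ x ∈ Ω, t • x ∈ Ω) : Tst Ω (D t φ) := by
  have hsub : Function.support (Pool.Agent.Helper13_HS.D t φ) ⊆ (fun x : E => t • x) '' tsupport φ := by
    intro x hx
    refine ⟨t⁻¹ • x, subset_tsupport _ ?_, ?_⟩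
    · intro h0
      apply hx
      simp [Pool.Agent.Helper13_HS.D, h0]
    · simp [smul_smul, mul_inv_cancel₀ ht.ne']
  have hc : IsCompact ((fun x : E => t • x) '' tsupport φ) :=
    h.2.1.isCompact.image (continuous_const_smul t)
  have hts : tsupport (Pool.Agent.Helper13_HS.D t φ) ⊆ (fun x : E => t • x) '' tsupport φ :=
    closure_minimal hsub hc.isClosed
  refine ⟨h.D_contDiff t, hc.of_isClosed_subset (isClosed_tsupport _) hts, ?_⟩
  intro x hx
  obtain ⟨y, hy, rfl⟩ := hts hx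
  exact hΩ y (h.2.2 hy)

lemma Adm.dil {Ω : Set E} {w : E → ℝ} {W : E → E} (h : Adm Ω w W) {t : ℝ} (ht : 0 < t)
    (hΩ : ∀ x ∈ Ω, t • x ∈ Ω) : Adm Ω (D t w) (D' t W) := by
  obtain ⟨hw, hW, φ, hφ, h1, h2⟩ := h
  have hmp : Measure.QuasiMeasurePreserving (fun x : E => t⁻¹ • x) volume volume := by
    refine ⟨measurable_const_smul t⁻¹, ?_⟩
    rw [Measure.map_addHaar_smul volume (inv_ne_zero ht.ne')]
    exact Measure.smul_absolutelyContinuous
  have hDw : AEStronglyMeasurable (D t w) volume :=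
    (hw.1.comp_quasiMeasurePreserving hmp).const_mul _
  have hDW : AEStronglyMeasurable (D' t W) volume :=
    (hW.1.comp_quasiMeasurePreserving hmp).const_smul ((√t ^ 3)⁻¹)
  refine ⟨⟨hDw, ?_⟩, ⟨hDW, ?_⟩, fun n => D t (φ n), fun n => (hφ n).D ht hΩ, ?_, ?_⟩
  · rw [eL_D w ht]
    exact ENNReal.mul_lt_top (by simp) hw.2
  · rw [eL_D' W ht]
    exact hW.2
  · have e : ∀ n, (fun x => D t (φ n) x - D t w x) = D t (fun x => φ n x - w x) := by
      intro n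
      funext x
      simp [D, mul_sub]
    simp_rw [e, eL_D _ ht]
    have := ENNReal.Tendsto.const_mul h1 (Or.inr (ENNReal.ofReal_ne_top (r := t)))
    simpa using this
  · have e : ∀ n, (fun x => gradient (D t (φ n)) x - D' t W x)
        = D' t (fun x => gradient (φ n) x - W x) := by
      intro n
      funext x
      rw [gradient_D (hφ n).1 ht]
      simp [D', smul_sub]
    simp_rw [e, eL_D' _ ht]
    exact h2

end Pool.Agent.Helper13_HS
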